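import Pool.Agent.H17.UN.Tow
import Pool.Agent.H12.UT.Targets2

/-!
# Board `uto_modules`, row REG: the ground field is algebraically closed in the function field
-/

set_option autoImplicit false

open Polynomial
open Pool.Agent.H17.UN

namespace Pool.Agent.H5.UN

open Pool.Agent.H12.UT (HS)

section hs

variable {K : Type} [Field K]

theorem alg_eq (c : K) : algebraMap K (HS K) c = HahnSeries.C c := by
  rw [HahnSeries.algebraMap_apply', PowerSeries.algebraMap_apply, HahnSeries.ofPowerSeries_C]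
  rfl

theorem ot_C (c : K) : (0 : WithTop ℝ) ≤ (HahnSeries.C c : HS K).orderTop := by
  rw [HahnSeries.C_apply]
  exact HahnSeries.orderTop_single_le

theorem ot_C' (c : K) (hc : c ≠ 0) : (HahnSeries.C c : HS K).orderTop = 0 := by
  rw [HahnSeries.C_apply]
  exact HahnSeries.orderTop_single hc

theorem nn_add {a b : HS K} (ha : 0 ≤ a.orderTop) (hb : 0 ≤ b.orderTop) :
    0 ≤ (a + b).orderTop :=
  (le_min ha hb).trans HahnSeries.min_orderTop_le_orderTop_add

theorem sm_add {a b : HS K} (ha : 0 < a.orderTop) (hb : 0 < b.orderTop) :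
    0 < (a + b).orderTop :=
  (lt_min ha hb).trans_le HahnSeries.min_orderTop_le_orderTop_add

theorem nn_mul {a b : HS K} (ha : 0 ≤ a.orderTop) (hb : 0 ≤ b.orderTop) :
    0 ≤ (a * b).orderTop := by
  rw [HahnSeries.orderTop_mul]
  exact add_nonneg ha hb

theorem sm_mul {a b : HS K} (ha : 0 < a.orderTop) (hb : 0 ≤ b.orderTop) :
    0 < (a * b).orderTop := by
  rw [HahnSeries.orderTop_mul]
  exact add_pos_of_pos_of_nonneg ha hb

theorem sm_single (γ : ℝ) (hγ : 0 < γ) : 0 < (HahnSeries.single γ (1 : K) : HS K).orderTop := by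
  rw [HahnSeries.orderTop_single one_ne_zero]
  exact_mod_cast hγ

theorem nn_aeval {ξ : HS K} (hξ : 0 ≤ ξ.orderTop) (p : K[X]) : 0 ≤ (aeval ξ p).orderTop := by
  induction p using Polynomial.induction_on' with
  | add p q hp hq =>
    rw [map_add]
    exact nn_add hp hq
  | monomial n a =>
    rw [aeval_monomial, alg_eq]
    refine nn_mul (ot_C _) ?_
    induction n with
    | zero =>
      rw [pow_zero, ← HahnSeries.C_one]
      exact ot_C _
    | succ n ih =>
      rw [pow_succ]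
      exact nn_mul ih hξ

theorem lead (a : K) (ha : a ≠ 0) (h : HS K) (hh : 0 < h.orderTop) :
    (HahnSeries.C a + h).leadingCoeff = a := by
  rw [HahnSeries.leadingCoeff_add_eq_left (by rw [ot_C' a ha]; exact hh), HahnSeries.C_apply,
    HahnSeries.leadingCoeff_of_single]

theorem sq_lead (hSQ : Pool.Agent.H12.UT.T_SQ) [CharZero K] (a : K) (ha : a ≠ 0) (h : HS K)
    (hh : 0 < h.orderTop) : IsSquare (HahnSeries.C (a ^ 2) + h) := by
  have h1 := lead (a ^ 2) (pow_ne_zero 2 ha) h hh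
  refine hSQ K _ a ?_ h1
  intro h2
  rw [h2, HahnSeries.leadingCoeff_zero] at h1
  exact pow_ne_zero 2 ha h1.symm

theorem alg_pos {h : HS K} (ha : IsAlgebraic K h) (h0 : h ≠ 0) : ¬ 0 < h.orderTop := by
  intro hpos
  have hint : IsIntegral K h := ha.isIntegral
  obtain ⟨p, hp⟩ : ∃ p, p = minpoly K h := ⟨_, rfl⟩
  have hp0 : p.coeff 0 ≠ 0 := by
    rw [hp]
    exact minpoly.coeff_zero_ne_zero hint h0
  have h1 : aeval h p = 0 := by
    rw [hp]
    exact minpoly.aeval K h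
  rw [← divX_mul_X_add p, map_add, map_mul, aeval_X, aeval_C, alg_eq] at h1
  have h2 : 0 < (h * aeval h p.divX).orderTop := sm_mul hpos (nn_aeval hpos.le _)
  have h3 : h * aeval h p.divX = -HahnSeries.C (p.coeff 0) := by
    rw [mul_comm]
    exact eq_neg_of_add_eq_zero_left h1
  rw [h3, HahnSeries.orderTop_neg] at h2
  rw [ot_C' _ hp0] at h2
  exact lt_irrefl _ h2

theorem alg_zero {h : HS K} (ha : IsAlgebraic K h) (h0 : h ≠ 0) : h.orderTop = 0 := by
  rcases lt_trichotomy h.orderTop 0 with h1 | h1 | h1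
  · exfalso
    refine alg_pos ha.inv (inv_ne_zero h0) ?_
    by_contra h2
    have h3 : (h * h⁻¹).orderTop = 0 := by
      rw [mul_inv_cancel₀ h0, ← HahnSeries.C_one]
      exact ot_C' _ one_ne_zero
    rw [HahnSeries.orderTop_mul] at h3
    have h4 := add_neg_of_neg_of_nonpos h1 (not_lt.1 h2)
    rw [h3] at h4
    exact lt_irrefl _ h4
  · exact h1
  · exact absurd h1 (alg_pos ha h0)

theorem alg_const {h : HS K} (ha : IsAlgebraic K h) : ∃ c : K, h = HahnSeries.C c := by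
  rcases eq_or_ne h 0 with h0 | h0
  · exact ⟨0, by rw [h0, HahnSeries.C_zero]⟩
  refine ⟨h.coeff 0, ?_⟩
  by_contra hne
  have h1 : h - HahnSeries.C (h.coeff 0) ≠ 0 := sub_ne_zero.2 hne
  have h2 : IsAlgebraic K (h - HahnSeries.C (h.coeff 0)) := by
    refine ha.sub ?_
    rw [← alg_eq]
    exact isAlgebraic_algebraMap _
  have h3 := HahnSeries.coeff_orderTop_ne (alg_zero h2 h1)
  apply h3
  rw [HahnSeries.coeff_sub, HahnSeries.C_apply, HahnSeries.coeff_single_same, sub_self]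

/-- ten independent elements, close to given constants -/
theorem exists_xi (hMON : Pool.Agent.H12.UT.T_MON) (hAFF : Pool.Agent.H12.UT.T_AFF)
    (p : Fin 10 → K) : ∃ ξ : Fin 10 → HS K, AlgebraicIndependent K ξ ∧
      ∀ j, ∃ δ : HS K, 0 < δ.orderTop ∧ ξ j = HahnSeries.C (p j) + δ := by
  obtain ⟨γ, hγ, hind⟩ := hMON K 10
  have hinj : Function.Injective
      (eval₂RingHom (HahnSeries.C : K →+* HS K) (HahnSeries.single (1 : ℝ) (1 : K))) := by
    rw [injective_iff_map_eq_zero]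
    intro f hf
    have hco : ∀ (f : K[X]) (n : ℕ), (eval₂RingHom (HahnSeries.C : K →+* HS K)
        (HahnSeries.single (1 : ℝ) (1 : K)) f).coeff (n : ℝ) = f.coeff n := by
      intro f n
      rw [coe_eval₂RingHom]
      induction f using Polynomial.induction_on' with
      | add p q hp hq =>
        rw [Polynomial.eval₂_add, HahnSeries.coeff_add, hp, hq, Polynomial.coeff_add]
      | monomial k a =>
        rw [Polynomial.eval₂_monomial, HahnSeries.single_pow, one_pow, nsmul_eq_mul, mul_one,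
          HahnSeries.C_apply, HahnSeries.single_mul_single, zero_add, mul_one,
          Polynomial.coeff_monomial]
        by_cases h : k = n
        · rw [if_pos h, h, HahnSeries.coeff_single_same]
        · rw [if_neg h, HahnSeries.coeff_single_of_ne]
          intro h2
          exact h (by exact_mod_cast h2.symm)
    ext n
    rw [← hco f n, hf, HahnSeries.coeff_zero, Polynomial.coeff_zero]
  obtain ⟨j, hj⟩ : ∃ j : FractionRing K[X] →+* HS K, j = IsFractionRing.lift hinj := ⟨_, rfl⟩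
  have hjC : ∀ c : K, j (algebraMap K[X] (FractionRing K[X]) (C c)) = HahnSeries.C c := by
    intro c
    rw [hj, IsFractionRing.lift_algebraMap, coe_eval₂RingHom, Polynomial.eval₂_C]
  have hjX : j (algebraMap K[X] (FractionRing K[X]) X) = HahnSeries.single 1 1 := by
    rw [hj, IsFractionRing.lift_algebraMap, coe_eval₂RingHom, Polynomial.eval₂_X]
  let _ : Algebra (FractionRing K[X]) (HS K) := j.toAlgebra
  have h1 := hind (FractionRing K[X]) hjC hjX
  have htow : @IsScalarTower K (FractionRing K[X]) (HS K) Algebra.toSMul Algebra.toSMul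
      Algebra.toSMul := by
    refine IsScalarTower.of_algebraMap_eq fun c => ?_
    rw [alg_eq]
    exact (hjC c).symm
  have h2 : AlgebraicIndependent K (fun j => (HahnSeries.single (γ j) 1 : HS K)) :=
    AlgebraicIndependent.restrictScalars (K := FractionRing K[X])
      (algebraMap K (FractionRing K[X])).injective h1
  have h3 := hAFF K (HS K) 10 _ p (fun _ => 1) (fun _ => one_ne_zero) h2
  refine ⟨_, h3, fun j => ⟨HahnSeries.single (γ j) 1, sm_single _ (hγ j), ?_⟩⟩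
  show algebraMap K (HS K) (p j) + algebraMap K (HS K) 1 * _ = _
  rw [map_one, one_mul, alg_eq]

/-- a polynomial at a point near `1` -/
theorem near_aeval (P : K[X]) (a : K) (δ : HS K) (hδ : 0 < δ.orderTop) :
    ∃ η : HS K, 0 < η.orderTop ∧
      aeval (HahnSeries.C a + δ) P = HahnSeries.C (P.eval a) + η := by
  obtain ⟨q, hq⟩ : (X - C a) ∣ P - C (P.eval a) := by
    rw [dvd_iff_isRoot, IsRoot.def, eval_sub, eval_C, sub_self]
  refine ⟨δ * aeval (HahnSeries.C a + δ) q, sm_mul hδ (nn_aeval (nn_add (ot_C a) hδ.le) q), ?_⟩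
  have h1 : P = C (P.eval a) + (X - C a) * q := by
    rw [← hq]
    ring
  conv_lhs => rw [h1]
  rw [map_add, map_mul, map_sub, aeval_X, aeval_C, aeval_C, alg_eq, alg_eq, add_sub_cancel_left]

end hs

theorem sm_mul' {K : Type} [Field K] {a b : HS K} (ha : 0 ≤ a.orderTop) (hb : 0 < b.orderTop) :
    0 < (a * b).orderTop := by
  rw [mul_comm]
  exact sm_mul hb ha

theorem sm_sq {K : Type} [Field K] {b : HS K} (hb : 0 < b.orderTop) : 0 < (b ^ 2).orderTop := by
  rw [pow_two]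
  exact sm_mul hb hb.le

theorem coe_aeval {K E : Type} [Field K] [Field E] [Algebra K E] (N : IntermediateField K E)
    (m : N) (P : K[X]) : ((aeval m P : N) : E) = aeval (m : E) P :=
  (aeval_algHom_apply N.val m P).symm

theorem pf_REG (hMON : Pool.Agent.H12.UT.T_MON) (hAFF : Pool.Agent.H12.UT.T_AFF)
    (hSQ : Pool.Agent.H12.UT.T_SQ) (hEXT : Pool.Agent.H12.UT.T_EXT)
    (hJK : Pool.Agent.H12.UT.T_JK) : T_REG := by
  intro K L _ _ _ _ P Q e c c' p0 F Kb Ω0 Ω s y z v X Y X' Y' w hD hT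
  have h0le : Ω0 ≤ Ω := by
    rw [hT.hΩ]
    exact le_sup_left
  have hg : ∀ a ∈ (({s, y, z, v, X', Y'} : Set L) ∪ (Set.range X ∪ Set.range Y)), a ∈ Ω := by
    intro a ha
    apply h0le
    rw [hT.hΩ0]
    exact IntermediateField.subset_adjoin _ _ ha
  have hs : s ∈ Ω := hg s (Or.inl (by simp))
  have hy : y ∈ Ω := hg y (Or.inl (by simp))
  have hz : z ∈ Ω := hg z (Or.inl (by simp))
  have hv : v ∈ Ω := hg v (Or.inl (by simp))
  have hX' : X' ∈ Ω := hg X' (Or.inl (by simp))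
  have hY' : Y' ∈ Ω := hg Y' (Or.inl (by simp))
  have hX : ∀ i, X i ∈ Ω := fun i => hg (X i) (Or.inr (Or.inl ⟨i, rfl⟩))
  have hY : ∀ i, Y i ∈ Ω := fun i => hg (Y i) (Or.inr (Or.inr ⟨i, rfl⟩))
  have hw : w ∈ Ω := by
    rw [hT.hΩ]
    exact (le_sup_right : _ ≤ Ω0 ⊔ IntermediateField.adjoin K {w})
      (IntermediateField.mem_adjoin_simple_self K w)
  obtain ⟨x, hx⟩ : ∃ x : Fin 10 → Ω, x = ![⟨s, hs⟩, ⟨z, hz⟩, ⟨v, hv⟩, ⟨Y 0, hY 0⟩, ⟨Y 1, hY 1⟩,
    ⟨Y 2, hY 2⟩, ⟨Y 3, hY 3⟩, ⟨Y 4, hY 4⟩, ⟨Y', hY'⟩, ⟨w, hw⟩] := ⟨_, rfl⟩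
  obtain ⟨yi, hyi⟩ : ∃ yi : Fin 5 → Fin 10, yi = ![3, 4, 5, 6, 7] := ⟨_, rfl⟩
  have hx0 : ((x 0 : Ω) : L) = s := by rw [hx]; rfl
  have hx1 : ((x 1 : Ω) : L) = z := by rw [hx]; rfl
  have hx2 : ((x 2 : Ω) : L) = v := by rw [hx]; rfl
  have hx8 : ((x 8 : Ω) : L) = Y' := by rw [hx]; rfl
  have hx9 : ((x 9 : Ω) : L) = w := by rw [hx]; rfl
  have hxy : ∀ i, ((x (yi i) : Ω) : L) = Y i := by
    intro i
    rw [hx, hyi]
    fin_cases i <;> rfl
  have hcomp : (Ω.val ∘ x : Fin 10 → L) =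
      ![s, z, v, Y 0, Y 1, Y 2, Y 3, Y 4, Y', w] := by
    funext j
    rw [hx]
    fin_cases j <;> rfl
  have hxi : AlgebraicIndependent K x := by
    apply AlgebraicIndependent.of_comp Ω.val
    rw [hcomp]
    exact hT.ind
  obtain ⟨S, hS⟩ : ∃ S : Set Ω, S = {a : Ω | ((a : Ω) : L) = y ∨ ((a : Ω) : L) = X' ∨
    ∃ i, ((a : Ω) : L) = X i} := ⟨_, rfl⟩
  have htop : IntermediateField.adjoin K (Set.range x ∪ S) = ⊤ := by
    obtain ⟨N, hN⟩ : ∃ N, N = IntermediateField.adjoin K (Set.range x ∪ S) := ⟨_, rfl⟩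
    have hle : Ω ≤ N.map Ω.val := by
      have hxN : ∀ j, ((x j : Ω) : L) ∈ N.map Ω.val := fun j =>
        ⟨x j, by rw [hN]; exact IntermediateField.subset_adjoin _ _ (Or.inl ⟨j, rfl⟩), rfl⟩
      have hSN : ∀ a ∈ S, ((a : Ω) : L) ∈ N.map Ω.val := fun a ha =>
        ⟨a, by rw [hN]; exact IntermediateField.subset_adjoin _ _ (Or.inr ha), rfl⟩
      have hle0 : Ω0 ≤ N.map Ω.val := by
        rw [hT.hΩ0, IntermediateField.adjoin_le_iff]
        rintro a ((rfl | rfl | rfl | rfl | rfl | rfl) | ⟨i, rfl⟩ | ⟨i, rfl⟩)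
        · rw [← hx0]; exact hxN 0
        · exact hSN ⟨_, hy⟩ (by rw [hS]; exact Or.inl rfl)
        · rw [← hx1]; exact hxN 1
        · rw [← hx2]; exact hxN 2
        · exact hSN ⟨_, hX'⟩ (by rw [hS]; exact Or.inr (Or.inl rfl))
        · rw [← hx8]; exact hxN 8
        · exact hSN ⟨_, hX i⟩ (by rw [hS]; exact Or.inr (Or.inr ⟨i, rfl⟩))
        · rw [← hxy i]; exact hxN (yi i)
      have h1 : Ω0 ⊔ IntermediateField.adjoin K {w} ≤ N.map Ω.val := by
        refine sup_le hle0 ?_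
        rw [IntermediateField.adjoin_le_iff, Set.singleton_subset_iff, ← hx9]
        exact hxN 9
      rw [← hT.hΩ] at h1
      exact h1
    rw [← hN, eq_top_iff]
    intro a _
    obtain ⟨b, hb, hba⟩ := hle a.2
    have h1 : b = a := Subtype.ext hba
    rw [← h1]
    exact hb
  obtain ⟨p, hp⟩ : ∃ p : Fin 10 → K, p = ![1, 0, 1, 0, 0, 0, 0, 0, 0, 0] := ⟨_, rfl⟩
  have hpy : ∀ i, p (yi i) = 0 := by
    intro i
    rw [hp, hyi]
    fin_cases i <;> rfl
  obtain ⟨ξ, hξ, hξδ⟩ := exists_xi hMON hAFF p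
  have hξ0 : ∃ δ : HS K, 0 < δ.orderTop ∧ ξ 0 = HahnSeries.C 1 + δ := by
    have := hξδ 0
    rw [hp] at this
    exact this
  have hξ2 : ∃ δ : HS K, 0 < δ.orderTop ∧ ξ 2 = HahnSeries.C 1 + δ := by
    have := hξδ 2
    rw [hp] at this
    exact this
  have hz0 : ∀ j, p j = 0 → 0 < (ξ j).orderTop := by
    intro j hj
    obtain ⟨δ, hδ, h⟩ := hξδ j
    rw [h, hj, HahnSeries.C_zero, zero_add]
    exact hδ
  have hξ1 : 0 < (ξ 1).orderTop := hz0 1 (by rw [hp]; rfl)
  have hξ8 : 0 < (ξ 8).orderTop := hz0 8 (by rw [hp]; rfl)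
  have hξy : ∀ i, 0 < (ξ (yi i)).orderTop := fun i => hz0 _ (hpy i)
  obtain ⟨i, -⟩ := hEXT K Ω (HS K) (Fin 10) x ξ S hxi hξ htop (by
    intro M hM θ _ hθ a ha
    rw [hS] at ha
    have hCM : ∀ t : K, θ (algebraMap K M t) = HahnSeries.C t := by
      intro t
      rw [θ.commutes, alg_eq]
    rcases ha with ha | ha | ⟨i, ha⟩
    · refine ⟨aeval ⟨x 0, hM 0⟩ P + aeval ⟨x 0, hM 0⟩ Q * ⟨x 1, hM 1⟩ ^ 2, ?_, ?_⟩
      · apply Subtype.ext
        simp only [IntermediateField.coe_add, IntermediateField.coe_mul,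
          IntermediateField.coe_pow, coe_aeval, hx0, hx1, ha]
        exact hT.con.symm
      · obtain ⟨δ, hδ, hδξ⟩ := hξ0
        obtain ⟨η, hη, hηP⟩ := near_aeval P 1 δ hδ
        have h1 : θ (aeval ⟨x 0, hM 0⟩ P + aeval ⟨x 0, hM 0⟩ Q * ⟨x 1, hM 1⟩ ^ 2) =
            HahnSeries.C (p0 ^ 2) + (η + aeval (ξ 0) Q * ξ 1 ^ 2) := by
          rw [map_add, map_mul, map_pow, ← aeval_algHom_apply, ← aeval_algHom_apply, hθ, hθ,
            ← add_assoc, hD.pt, ← hηP, ← hδξ]
        rw [h1]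
        refine sq_lead hSQ p0 hD.p0 _ (sm_add hη (sm_mul' (nn_aeval ?_ Q) (sm_sq hξ1)))
        rw [hδξ]
        exact nn_add (ot_C 1) hδ.le
    · refine ⟨⟨x 2, hM 2⟩ + algebraMap K M c' * ⟨x 8, hM 8⟩ ^ 2, ?_, ?_⟩
      · apply Subtype.ext
        have h1 : (((algebraMap K M c' : M) : Ω) : L) = algebraMap K L c' := rfl
        simp only [IntermediateField.coe_add, IntermediateField.coe_mul,
          IntermediateField.coe_pow, hx2, hx8, ha, h1]
        rw [hT.inf]
        ring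
      · obtain ⟨δ, hδ, hδξ⟩ := hξ2
        have h1 : θ (⟨x 2, hM 2⟩ + algebraMap K M c' * ⟨x 8, hM 8⟩ ^ 2) =
            HahnSeries.C ((1 : K) ^ 2) + (δ + HahnSeries.C c' * ξ 8 ^ 2) := by
          rw [map_add, map_mul, map_pow, hCM, hθ, hθ, hδξ, one_pow, add_assoc]
        rw [h1]
        exact sq_lead hSQ 1 one_ne_zero _ (sm_add hδ (sm_mul' (ot_C c') (sm_sq hξ8)))
    · refine ⟨(⟨x 0, hM 0⟩ * ⟨x 2, hM 2⟩ - algebraMap K M (e i) * ⟨x 2, hM 2⟩) *
        algebraMap K M (1 - e i)⁻¹ + algebraMap K M (c i) * ⟨x (yi i), hM (yi i)⟩ ^ 2, ?_, ?_⟩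
      · apply Subtype.ext
        have h1 : ∀ t : K, (((algebraMap K M t : M) : Ω) : L) = algebraMap K L t := fun _ => rfl
        simp only [IntermediateField.coe_add, AddSubgroupClass.coe_sub,
          IntermediateField.coe_mul, IntermediateField.coe_pow, hx0, hx2, hxy, ha, h1]
        rw [hT.eqs i, mul_comm (algebraMap K L (1 - e i)), mul_assoc, ← map_mul,
          mul_inv_cancel₀ (sub_ne_zero.2 (hD.one i).symm), map_one]
        ring
      · obtain ⟨δ, hδ, hδξ⟩ := hξ0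
        obtain ⟨δ', hδ', hδξ'⟩ := hξ2
        have hu : (HahnSeries.C (1 - e i) : HS K) * HahnSeries.C (1 - e i)⁻¹ = 1 := by
          rw [← map_mul, mul_inv_cancel₀ (sub_ne_zero.2 (hD.one i).symm), map_one]
        have hu' : (HahnSeries.C (1 - e i) : HS K) = 1 - HahnSeries.C (e i) := by
          rw [map_sub, map_one]
        have h1 : θ ((⟨x 0, hM 0⟩ * ⟨x 2, hM 2⟩ - algebraMap K M (e i) * ⟨x 2, hM 2⟩) *
            algebraMap K M (1 - e i)⁻¹ + algebraMap K M (c i) * ⟨x (yi i), hM (yi i)⟩ ^ 2) =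
            HahnSeries.C ((1 : K) ^ 2) + ((δ * ξ 2 + HahnSeries.C (1 - e i) * δ') *
              HahnSeries.C (1 - e i)⁻¹ + HahnSeries.C (c i) * ξ (yi i) ^ 2) := by
          rw [map_add, map_mul, map_mul, map_sub, map_mul, map_mul, map_pow, hCM, hCM, hCM, hθ,
            hθ, hθ, one_pow, hδξ, map_one]
          rw [hu'] at hu ⊢
          rw [hδξ', map_one]
          linear_combination hu
        rw [h1]
        refine sq_lead hSQ 1 one_ne_zero _ (sm_add (sm_mul (sm_add (sm_mul hδ ?_)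
          (sm_mul' (ot_C _) hδ')) (ot_C _)) (sm_mul' (ot_C _) (sm_sq (hξy i))))
        rw [hδξ']
        exact nn_add (ot_C 1) hδ'.le)
  rw [eq_bot_iff]
  intro a ha
  obtain ⟨ha1, ha2⟩ := IntermediateField.mem_inf.1 ha
  have hal : IsAlgebraic K (⟨a, ha1⟩ : Ω) := by
    rw [← isAlgebraic_algHom_iff Ω.val Ω.val.injective]
    exact hT.alg a ha2
  obtain ⟨t, ht⟩ := alg_const (hal.algHom i)
  have h1 : (⟨a, ha1⟩ : Ω) = algebraMap K Ω t := by
    apply (i : Ω →+* HS K).injective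
    show i ⟨a, ha1⟩ = i (algebraMap K Ω t)
    rw [ht, i.commutes, alg_eq]
  rw [IntermediateField.mem_bot]
  refine ⟨t, ?_⟩
  have h2 := congrArg (fun b : Ω => (b : L)) h1
  exact h2.symm

end Pool.Agent.H5.UN
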